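import Mathlib
import Pool.Agent.Lib.MP_ee7b66_ag.Frame

/-!
# The incidence table of the dual Hesse arrangement
-/

open scoped LinearAlgebra.Projectivization
open Pool.Agent.Lib.MP_8481ed_ag TopologicalSpace MvPolynomial

namespace Pool.Agent.Lib.MP_ee7b66_ag

noncomputable section

/-- The point `i` lies on the line `j`. -/
def inc (i : Fin 12) (j : Fin 9) : Bool :=
  (![[0, 1, 2], [0, 3, 6], [0, 5, 7], [0, 4, 8], [3, 4, 5], [6, 7, 8], [2, 4, 6], [2, 3, 7],
    [2, 5, 8], [1, 5, 6], [1, 4, 7], [1, 3, 8]] : Fin 12 → List (Fin 9)) i |>.contains j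

lemma om_sub_sq : om - om ^ 2 ≠ 0 := by
  intro h
  apply om_ne_one
  have h1 : om * (1 - om) = 0 := by linear_combination h
  rcases mul_eq_zero.1 h1 with h2 | h2
  · exact absurd h2 om_ne_zero
  · linear_combination -h2

lemma eis (a b : ℤ) : (a : ℂ) + b * om = 0 ↔ a = 0 ∧ b = 0 := by
  constructor
  · intro h
    have h1 := congrArg Complex.im h
    have h2 := congrArg Complex.re h
    have e1 : om.re = -1 / 2 := by
      simp [om]
    have e2 : om.im = Real.sqrt 3 / 2 := by
      simp [om]
    simp only [Complex.add_im, Complex.intCast_im, Complex.mul_im, Complex.intCast_re, e2, e1,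
      Complex.zero_im, Complex.add_re, Complex.mul_re, Complex.zero_re] at h1 h2
    have h3 : Real.sqrt 3 ≠ 0 := by positivity
    have hb : (b : ℝ) = 0 := by
      have : (b : ℝ) * Real.sqrt 3 = 0 := by linear_combination 2 * h1
      rcases mul_eq_zero.1 this with h | h
      · exact h
      · exact absurd h h3
    have ha : (a : ℝ) = 0 := by
      rw [hb] at h2
      linear_combination h2
    exact ⟨by exact_mod_cast ha, by exact_mod_cast hb⟩
  · rintro ⟨rfl, rfl⟩
    simp

/-- The values of the nine forms at the twelve points, as `a + b ω`. -/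
def tabA (i : Fin 12) (j : Fin 9) : ℤ × ℤ :=
  let e : ℕ → ℤ × ℤ := fun n => if n % 3 = 0 then (1, 0) else if n % 3 = 1 then (0, 1) else (-1, -1)
  let pv : Fin 12 → Fin 3 → Option ℕ := ![![none, none, some 0], ![some 0, some 0, some 0],
    ![some 0, some 0, some 1], ![some 0, some 0, some 2], ![some 0, none, none],
    ![none, some 0, none], ![some 0, some 1, some 0], ![some 0, some 1, some 1],
    ![some 0, some 1, some 2], ![some 0, some 2, some 0], ![some 0, some 2, some 1],
    ![some 0, some 2, some 2]]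
  let f : Option ℕ → ℕ → ℤ × ℤ := fun o k => match o with
    | none => 0
    | some n => e (n + k)
  if j.1 < 3 then f (pv i 0) 0 - f (pv i 1) j.1
  else if j.1 < 6 then f (pv i 1) 0 - f (pv i 2) (j.1 - 3)
  else f (pv i 2) 0 - f (pv i 0) (j.1 - 6)

lemma tab_eq (i : Fin 12) (j : Fin 9) :
    lin (lvec j) (pvec i) = ((tabA i j).1 : ℂ) + (tabA i j).2 * om := by
  have h := om_rel
  have h3 := om_cube
  have h2 : om ^ 2 = -1 - om := by linear_combination h
  have h4 : om ^ 4 = om := by linear_combination om * h3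
  fin_cases i <;> fin_cases j <;>
    simp [lin, Fin.sum_univ_three, lvec, pvec, tabA] <;> (try ring_nf) <;> (try simp only [h2, h3, h4]) <;> (try ring)

/-- The incidence table. -/
lemma inc_iff (i : Fin 12) (j : Fin 9) : lin (lvec j) (pvec i) = 0 ↔ inc i j = true := by
  rw [tab_eq, eis]
  revert i j
  decide

lemma lvec_ne_zero (j : Fin 9) : lvec j ≠ 0 := by
  intro h
  have h0 := congrFun h 0
  have h1 := congrFun h 1
  have h2 := congrFun h 2
  fin_cases j <;> simp_all [lvec]

lemma lin_smul (c : Fin 3 → ℂ) (t : ℂ) (v : Fin 3 → ℂ) : lin c (t • v) = t * lin c v := by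
  simp only [lin, Fin.sum_univ_three, Pi.smul_apply, smul_eq_mul]
  ring

lemma lin_add (c v w : Fin 3 → ℂ) : lin c (v + w) = lin c v + lin c w := by
  simp only [lin, Fin.sum_univ_three, Pi.add_apply]
  ring

/-- A point of the plane lies on the line given by a linear form iff the form vanishes. -/
lemma submodule_le_lker (q : Plane ℂ) (c : Fin 3 → ℂ) :
    q.submodule ≤ lker c ↔ lin c q.rep = 0 := by
  rw [Projectivization.submodule_eq, Submodule.span_singleton_le_iff_mem, mem_lker]

/-- The point `hp i` lies on the line `hl j` iff it is so in the table. -/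
lemma hp_le_hl (i : Fin 12) (j : Fin 9) : (hp i).submodule ≤ hl j ↔ inc i j = true := by
  rw [← inc_iff, hp, Projectivization.submodule_mk, Submodule.span_singleton_le_iff_mem, hl,
    mem_lker]

lemma lin_hp_rep (i : Fin 12) (j : Fin 9) : lin (lvec j) (hp i).rep = 0 ↔ inc i j = true := by
  rw [← hp_le_hl, ← submodule_le_lker, hl]

lemma finrank_hl (j : Fin 9) : Module.finrank ℂ (hl j) = 2 := finrank_lker (lvec_ne_zero j)

/-- The nine lines are different. -/
lemma hl_injective : Function.Injective hl := by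
  intro j j' h
  by_contra hne
  have key : ∀ j j' : Fin 9, j ≠ j' → ∃ i, inc i j = true ∧ ¬ inc i j' = true := by decide
  obtain ⟨i, h1, h2⟩ := key j j' hne
  apply h2
  rw [← hp_le_hl, ← h, hp_le_hl]
  exact h1

/-- The twelve points are different. -/
lemma hp_injective : Function.Injective hp := by
  intro i i' h
  by_contra hne
  have key : ∀ i i' : Fin 12, i ≠ i' → ∃ j, inc i j = true ∧ ¬ inc i' j = true := by decide
  obtain ⟨j, h1, h2⟩ := key i i' hne
  apply h2
  rw [← hp_le_hl, ← h, hp_le_hl]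
  exact h1

/-- Two different lines have at most one point in common. -/
lemma two_lines {Λ Λ' : Submodule ℂ (Fin 3 → ℂ)} (h : Module.finrank ℂ Λ = 2)
    (h' : Module.finrank ℂ Λ' = 2) (hne : Λ ≠ Λ') {q q' : Plane ℂ} (h1 : q.submodule ≤ Λ)
    (h2 : q.submodule ≤ Λ') (h3 : q'.submodule ≤ Λ) (h4 : q'.submodule ≤ Λ') : q = q' := by
  have hlt : Module.finrank ℂ (Λ ⊓ Λ' : Submodule ℂ (Fin 3 → ℂ)) < 2 := by
    have hle : Module.finrank ℂ (Λ ⊓ Λ' : Submodule ℂ (Fin 3 → ℂ)) ≤ 2 := by
      rw [← h]
      exact Submodule.finrank_mono inf_le_left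
    refine lt_of_le_of_ne hle fun h5 => hne ?_
    have e1 : Λ ⊓ Λ' = Λ := Submodule.eq_of_le_of_finrank_eq inf_le_left (by rw [h5, h])
    have e2 : Λ ⊓ Λ' = Λ' := Submodule.eq_of_le_of_finrank_eq inf_le_right (by rw [h5, h'])
    rw [← e1, e2]
  have hq : ∀ q : Plane ℂ, q.submodule ≤ Λ → q.submodule ≤ Λ' → q.submodule = Λ ⊓ Λ' := by
    intro q h1 h2
    refine Submodule.eq_of_le_of_finrank_le (le_inf h1 h2) ?_
    rw [Projectivization.finrank_submodule]
    omega
  apply Projectivization.submodule_injective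
  rw [hq q h1 h2, hq q' h3 h4]

/-- Two different of the nine lines meet in one of the twelve points. -/
lemma exists_hp {j j' : Fin 9} (hne : j ≠ j') {q : Plane ℂ} (h1 : q.submodule ≤ hl j)
    (h2 : q.submodule ≤ hl j') : ∃ i, q = hp i := by
  have key : ∀ j j' : Fin 9, ∃ i, inc i j = true ∧ inc i j' = true := by decide
  obtain ⟨i, h3, h4⟩ := key j j'
  exact ⟨i, two_lines (finrank_hl j) (finrank_hl j') (hl_injective.ne hne) h1 h2
    ((hp_le_hl i j).2 h3) ((hp_le_hl i j').2 h4)⟩

end

end Pool.Agent.Lib.MP_ee7b66_ag
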