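import Mathlib

/-!
# Jacobians of linear fractional coordinates
-/

namespace Pool.Agent.Lib.MP_ee7b66_ag

variable {k K : Type*} [Field k] [Field K] [Algebra k K]

/-- The value of `da ∧ db` on a pair of derivations. -/
def jac (δ₁ δ₂ : Derivation k K K) (a b : K) : K := δ₁ a * δ₂ b - δ₁ b * δ₂ a

lemma derivation_div (δ : Derivation k K K) (x y : K) (hy : y ≠ 0) :
    δ (x / y) = (δ x * y - x * δ y) / y ^ 2 := by
  have h1 : δ (x / y * y) = δ x := by rw [div_mul_cancel₀ _ hy]
  rw [Derivation.leibniz, smul_eq_mul, smul_eq_mul] at h1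
  have h2 : y * δ (x / y) = δ x - x / y * δ y := by linear_combination h1
  field_simp
  field_simp at h2
  linear_combination h2

lemma derivation_linear (δ : Derivation k K K) (c₀ c₁ c₂ : k) (u v : K) :
    δ (algebraMap k K c₀ * u + algebraMap k K c₁ * v + algebraMap k K c₂) =
      algebraMap k K c₀ * δ u + algebraMap k K c₁ * δ v := by
  simp [Derivation.leibniz]

/-- Linear fractional change of coordinates. -/
lemma jac_frame (δ₁ δ₂ : Derivation k K K) (u v : K) (a₀ a₁ a₂ b₀ b₁ b₂ m₀ m₁ m₂ : k)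
    (μ : K) (hμ : μ = algebraMap k K m₀ * u + algebraMap k K m₁ * v + algebraMap k K m₂)
    (hμ0 : μ ≠ 0) :
    jac δ₁ δ₂ ((algebraMap k K a₀ * u + algebraMap k K a₁ * v + algebraMap k K a₂) / μ)
      ((algebraMap k K b₀ * u + algebraMap k K b₁ * v + algebraMap k K b₂) / μ) * μ ^ 3 =
    algebraMap k K (a₀ * (b₁ * m₂ - b₂ * m₁) - a₁ * (b₀ * m₂ - b₂ * m₀) +
      a₂ * (b₀ * m₁ - b₁ * m₀)) * jac δ₁ δ₂ u v := by
  have hd : ∀ δ : Derivation k K K, δ μ = algebraMap k K m₀ * δ u + algebraMap k K m₁ * δ v := by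
    intro δ
    rw [hμ, derivation_linear]
  have hA : ∀ (δ : Derivation k K K) (c₀ c₁ c₂ : k),
      δ ((algebraMap k K c₀ * u + algebraMap k K c₁ * v + algebraMap k K c₂) / μ) =
        ((algebraMap k K c₀ * δ u + algebraMap k K c₁ * δ v) * μ -
          (algebraMap k K c₀ * u + algebraMap k K c₁ * v + algebraMap k K c₂) *
            (algebraMap k K m₀ * δ u + algebraMap k K m₁ * δ v)) / μ ^ 2 := by
    intro δ c₀ c₁ c₂
    rw [derivation_div _ _ _ hμ0, derivation_linear, hd]
  unfold jac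
  rw [hA, hA, hA, hA]
  simp only [map_add, map_sub, map_mul]
  generalize δ₁ u = p
  generalize δ₁ v = q
  generalize δ₂ u = r
  generalize δ₂ v = s
  generalize algebraMap k K a₀ = a₀'
  generalize algebraMap k K a₁ = a₁'
  generalize algebraMap k K a₂ = a₂'
  generalize algebraMap k K b₀ = b₀'
  generalize algebraMap k K b₁ = b₁'
  generalize algebraMap k K b₂ = b₂'
  generalize algebraMap k K m₀ = m₀' at hμ ⊢
  generalize algebraMap k K m₁ = m₁' at hμ ⊢
  generalize algebraMap k K m₂ = m₂' at hμ ⊢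
  apply mul_right_cancel₀ hμ0
  have key : ∀ x y z w : K, (x / μ ^ 2 * (y / μ ^ 2) - z / μ ^ 2 * (w / μ ^ 2)) * μ ^ 3 * μ =
      x * y - z * w := by
    intro x y z w
    field_simp
  rw [key, hμ]
  ring

/-- The blow-up coordinate: `b = α w`. -/
lemma jac_mul (δ₁ δ₂ : Derivation k K K) (α w : K) :
    jac δ₁ δ₂ α (α * w) = α * jac δ₁ δ₂ α w := by
  unfold jac
  simp only [Derivation.leibniz, smul_eq_mul]
  ring

end Pool.Agent.Lib.MP_ee7b66_ag
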